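import Pool.Agent.P.MP_b83b91_an.Main

namespace Pool.Agent.Results.MP_b83b91_an.NotFDC

open Pool.Agent.P.MP_b83b91_an

/-- There is a homeomorphism `T` of a compact metrizable space `X` whose transformation groupoid
`ℤ ⋉ X` is a locally compact Hausdorff etale groupoid that is principal and amenable and does not
have finite dynamical complexity. -/
theorem result : ∃ (X : Type) (_ : TopologicalSpace X) (T : X ≃ₜ X)
    (Γ : EtaleGroupoid (ℤ × X) X),
    CompactSpace X ∧ TopologicalSpace.MetrizableSpace X ∧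
    (∀ n x, Γ.s (n, x) = x) ∧ (∀ n x, Γ.r (n, x) = (T ^ n) x) ∧
    (∀ m y n x, Γ.mul (m, y) (n, x) = (m + n, x)) ∧
    T2Space (ℤ × X) ∧ LocallyCompactSpace (ℤ × X) ∧
    Γ.Principal ∧ Γ.Amenable ∧ ¬ Γ.FDC :=
  ⟨XT, inferInstance, trH, TG, inferInstance, inferInstance, fun _ _ => rfl,
    fun n x => (trH_zpow n x).symm, fun _ _ _ _ => rfl, inferInstance, inferInstance,
    principal, amenable, not_fdc⟩

end Pool.Agent.Results.MP_b83b91_an.NotFDC
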